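import Pool.Agent.R199.WComp5

/-!
# MP_07ea7a_an: chaotic weighted composition operators on smooth functions are mixing

For every `d`, every open `Ω ⊆ ℝᵈ`, and all smooth `w : Ω → 𝕜` and `ψ : Ω → Ω` (`𝕜` is `ℝ` or `ℂ`),
if the weighted composition operator `f ↦ w · (f ∘ ψ)` on the Fréchet space `C^∞(Ω, 𝕜)` is chaotic,
then it is mixing.
-/

set_option autoImplicit false

open Set
open scoped ContDiff

namespace Pool.Agent.Results.MP_07ea7a_an.ChaoticIsMixing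

open Pool.Agent.R199.WComp

theorem result (d : ℕ) (𝕜 : Type) [RCLike 𝕜] (Ω : Set (EuclideanSpace ℝ (Fin d))) (hΩ : IsOpen Ω)
    (w : EuclideanSpace ℝ (Fin d) → 𝕜) (ψ : EuclideanSpace ℝ (Fin d) → EuclideanSpace ℝ (Fin d))
    (hw : ContDiffOn ℝ ∞ w Ω) (hψ : ContDiffOn ℝ ∞ ψ Ω) (hm : MapsTo ψ Ω Ω)
    (hC : IsChaotic (wcomp w ψ hw hψ hm)) : IsMixing (wcomp w ψ hw hψ hm) :=
  mixing_of_stronglyRunAway (good_of_transitive hΩ hC.1) (fun _ hx => w_ne_zero hΩ hC.1 hx)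
    (stronglyRunAway_of_chaotic hΩ hC)

end Pool.Agent.Results.MP_07ea7a_an.ChaoticIsMixing
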